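import Pool.Agent.helper52.EU.SpecI

/-!
# Row RNR of project eu (MP_ad8ced_nt)
-/

set_option autoImplicit false

open Finset

namespace Pool.Agent.EU

open Pool.Agent.FI Pool.Agent.FJ

theorem RNR_e3 (z z' w : ℤ × ℤ) : dl z z' * ac z w = sp z z' * lc z w - N8 z * lc z' w := by
  unfold dl N8 lc ac sp; ring

theorem RNR_e4 (z z' w : ℤ × ℤ) : dl z z' * ac z' w = N8 z' * lc z w - sp z z' * lc z' w := by
  unfold dl N8 lc ac sp; ring

theorem RNR_nn {N : ℕ} {z : ℤ × ℤ} (hz : z ∈ ZD N) : |N8 z| ≤ 2 * (N : ℤ) := by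
  simp only [ZD, FF, mem_filter] at hz
  have h2 : ((nn z : ℕ) : ℤ) ≤ ((2 * N : ℕ) : ℤ) := by exact_mod_cast hz.1.2.2
  unfold nn at h2
  rw [Int.natCast_natAbs] at h2
  push_cast at h2
  exact h2

theorem RNR_nn' {N : ℕ} {z : ℤ × ℤ} (hz : z ∈ ZD N) : (N : ℤ) < |N8 z| := by
  simp only [ZD, FF, mem_filter] at hz
  have h2 : ((N : ℕ) : ℤ) < ((nn z : ℕ) : ℤ) := by exact_mod_cast hz.2.1
  unfold nn at h2
  rw [Int.natCast_natAbs] at h2
  exact h2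

theorem RNR_two {K : ℕ} (hK : 1 ≤ K) : (2 : ℝ) ^ ((1 : ℝ) / K) ≤ 1 + 1 / K := by
  have hK' : (1 : ℝ) ≤ K := by exact_mod_cast hK
  have h0 : (0 : ℝ) ≤ 1 / K := by positivity
  have h1 : (1 : ℝ) / K ≤ 1 := by
    rw [div_le_one (by linarith)]
    exact hK'
  have h := _root_.rpow_one_add_le_one_add_mul_self (s := (1 : ℝ)) (by norm_num) h0 h1
  have e : (1 : ℝ) + 1 = 2 := by norm_num
  rw [e, mul_one] at h
  exact h

/-- the quotient of two elements of cells -/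
theorem RNR_rho {x K : ℕ} (hx : 1 ≤ x) (hK : 1 ≤ K) {i j : ℕ} {m : ℤ} (hm : (j : ℤ) - i = m) (hmK : m < K)
    {l₁ l₂ : ℝ} (a1 : (x : ℝ) * (2 : ℝ) ^ ((i : ℝ) / K) < l₁) (a2 : l₁ ≤ (x : ℝ) * (2 : ℝ) ^ (((i : ℝ) + 1) / K))
    (b1 : (x : ℝ) * (2 : ℝ) ^ ((j : ℝ) / K) < l₂) (b2 : l₂ ≤ (x : ℝ) * (2 : ℝ) ^ (((j : ℝ) + 1) / K)) :
    |l₂ / l₁ - (2 : ℝ) ^ ((m : ℝ) / K)| ≤ 2 / K := by
  have hx' : (0 : ℝ) < x := by exact_mod_cast hx
  have hK' : (0 : ℝ) < K := by exact_mod_cast hK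
  have hl₁ : 0 < l₁ := lt_trans (by positivity) a1
  set M : ℝ := (2 : ℝ) ^ ((m : ℝ) / K) with hM
  set t : ℝ := (2 : ℝ) ^ ((1 : ℝ) / K) with ht
  set u : ℝ := (2 : ℝ) ^ ((i : ℝ) / K) with hu
  have hM0 : 0 < M := by positivity
  have ht1 : 1 ≤ t := Real.one_le_rpow (by norm_num) (by positivity)
  have ht2 : t ≤ 1 + 1 / K := RNR_two hK
  have hu0 : 0 < u := by positivity
  have hm' : (m : ℝ) = (j : ℝ) - i := by
    rw [← hm]; push_cast; ring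
  have hj : (2 : ℝ) ^ ((j : ℝ) / K) = u * M := by
    rw [hu, hM, ← Real.rpow_add (by norm_num), hm']
    congr 1
    ring
  have hj1 : (2 : ℝ) ^ (((j : ℝ) + 1) / K) = u * M * t := by
    rw [← hj, ht, ← Real.rpow_add (by norm_num)]
    congr 1
    ring
  have hi1 : (2 : ℝ) ^ (((i : ℝ) + 1) / K) = u * t := by
    rw [hu, ht, ← Real.rpow_add (by norm_num)]
    congr 1
    ring
  rw [hi1] at a2
  rw [hj] at b1
  rw [hj1] at b2
  have hM2 : M ≤ 2 := by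
    calc M ≤ (2 : ℝ) ^ (1 : ℝ) := by
          refine Real.rpow_le_rpow_of_exponent_le (by norm_num) ?_
          rw [div_le_one hK']
          have : (m : ℝ) < ((K : ℤ) : ℝ) := by exact_mod_cast hmK
          push_cast at this
          exact this.le
      _ = 2 := Real.rpow_one 2
  have h1K : (0 : ℝ) < 1 / K := by positivity
  -- upper
  have up : l₂ / l₁ ≤ M * t := by
    rw [div_le_iff₀ hl₁]
    calc l₂ ≤ x * (u * M * t) := b2
      _ = M * t * (x * u) := by ring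
      _ ≤ M * t * l₁ := mul_le_mul_of_nonneg_left a1.le (by positivity)
  have lo : M ≤ l₂ / l₁ * t := by
    rw [div_mul_eq_mul_div, le_div_iff₀ hl₁]
    calc M * l₁ ≤ M * (x * (u * t)) := mul_le_mul_of_nonneg_left a2 hM0.le
      _ = x * (u * M) * t := by ring
      _ ≤ l₂ * t := mul_le_mul_of_nonneg_right b1.le (by linarith)
  have e : (2 : ℝ) / K = 2 * (1 / K) := by ring
  rw [e, abs_le]
  constructor
  · -- M ≤ ρ t ≤ ρ (1 + 1/K)
    have hρ0 : 0 < l₂ / l₁ := by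
      have : 0 < l₂ := lt_trans (by positivity) b1
      positivity
    by_cases hc : l₂ / l₁ ≤ 2
    · nlinarith
    · push Not at hc
      nlinarith
  · nlinarith


theorem RNR (hGPT : GPT_stmt) (hFFC : FFC_stmt) : RNR_stmt := by
  refine ⟨?_, ?_, ?_⟩
  · intro z z' w hd
    have hd' : (dl z z' : ℝ) ≠ 0 := by exact_mod_cast hd
    constructor
    · unfold a1
      rw [div_eq_iff hd']
      have h := RNR_e3 z z' w
      have h' : (dl z z' : ℝ) * ac z w = sp z z' * lc z w - N8 z * lc z' w := by exact_mod_cast h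
      linarith
    · unfold a2
      rw [div_eq_iff hd']
      have h := RNR_e4 z z' w
      have h' : (dl z z' : ℝ) * ac z' w = N8 z' * lc z w - sp z z' * lc z' w := by exact_mod_cast h
      linarith
  · intro x N A K₁ K₃ K₄ hx hN hA hAx hK₁ hK₃ hK₄ hsize z hz z' hz' hrel b hb m hm0
    simp only [GdC, mem_filter] at hm0
    obtain ⟨hmI, ⟨l₁, l₂, hin⟩, hall⟩ := hm0
    obtain ⟨h3, hacA, -, -⟩ := hall l₁ l₂ hin
    obtain ⟨i, hi, j, hj, hm, hc1, hc2⟩ := hin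
    have hK : 1 ≤ K₃ * K₄ := Nat.mul_pos hK₃ hK₄
    rw [mem_Ico] at hi
    rw [mem_range] at hj
    have hiK : i < K₃ * K₄ := lt_of_lt_of_le hi.2 (Nat.mul_le_mul_right _ hb)
    have hg := (hGPT x (K₃ * K₄) hx hK).2.2.2.1
    have hg2 := (hGPT x (K₃ * K₄) hx hK).2.2.2.2.2.2.1
    obtain ⟨b1, b2⟩ := (hg i _).1 hc1
    obtain ⟨c1, c2⟩ := (hg j _).1 hc2
    have h1 := (hg2 i hiK l₁ hc1).1
    have hmK : m < ((K₃ * K₄ : ℕ) : ℤ) := (mem_Ioo.1 hmI).2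
    have hρ := RNR_rho hx hK hm hmK b1 b2 c1 c2
    unfold Mz
    rw [mem_filter]
    refine ⟨hmI, ?_⟩
    have hx' : (0 : ℝ) < x := by exact_mod_cast hx
    have hl₁ : (x : ℝ) < (l₁ : ℝ) := by exact_mod_cast h1
    have hl₁0 : (0 : ℝ) < (l₁ : ℝ) := by linarith
    have hDcast : (((dl z z').natAbs : ℕ) : ℝ) = |(dl z z' : ℝ)| := by
      rw [Nat.cast_natAbs, Int.cast_abs]
    have hr : (N : ℝ) * A < K₁ * (x * |(dl z z' : ℝ)|) := by
      rw [← hDcast]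
      exact_mod_cast hrel
    have hd0 : (dl z z' : ℝ) ≠ 0 := by
      intro h0
      rw [h0] at hr
      simp at hr
      have : (0 : ℝ) ≤ N * A := by positivity
      linarith
    have e3 : (dl z z' : ℝ) * a1 z z' l₁ l₂ = sp z z' * l₁ - N8 z * l₂ := by
      unfold a1
      field_simp
    have hk : |(N8 z : ℝ)| ≤ 2 * N := by exact_mod_cast RNR_nn hz
    have f1 : |(sp z z' : ℝ) - N8 z * ((l₂ : ℝ) / l₁)| ≤ A * |(dl z z' : ℝ)| / x := by
      have e4 : (sp z z' : ℝ) - N8 z * ((l₂ : ℝ) / l₁) = dl z z' * a1 z z' l₁ l₂ / l₁ := by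
        rw [e3]
        field_simp
      rw [e4, abs_div, abs_mul, abs_of_pos h3, abs_of_pos hl₁0, div_le_div_iff₀ hl₁0 hx']
      calc |(dl z z' : ℝ)| * a1 z z' l₁ l₂ * x ≤ |(dl z z' : ℝ)| * A * x :=
            mul_le_mul_of_nonneg_right (mul_le_mul_of_nonneg_left hacA (abs_nonneg _)) hx'.le
        _ ≤ |(dl z z' : ℝ)| * A * l₁ := mul_le_mul_of_nonneg_left hl₁.le (by positivity)
        _ = A * |(dl z z' : ℝ)| * l₁ := by ring
    set K : ℕ := K₃ * K₄ with hKdef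
    have f2 : |(N8 z : ℝ) * ((l₂ : ℝ) / l₁) - N8 z * (2 : ℝ) ^ ((m : ℝ) / K)| ≤ 2 * N * (2 / K) := by
      rw [← mul_sub, abs_mul]
      exact mul_le_mul hk hρ (abs_nonneg _) (by positivity)
    have f3 : 2 * (N : ℝ) * (2 / K) ≤ A * |(dl z z' : ℝ)| / x := by
      have hK0 : (0 : ℝ) < K := by exact_mod_cast hK
      have hK₃' : (1 : ℝ) ≤ K₃ := by exact_mod_cast hK₃
      have hK₄' : (1 : ℝ) ≤ K₄ := by exact_mod_cast hK₄
      have hK₁' : (1 : ℝ) ≤ K₁ := by exact_mod_cast hK₁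
      have hA' : (1 : ℝ) ≤ A := by exact_mod_cast hA
      have hN' : (1 : ℝ) ≤ N := by exact_mod_cast hN
      have hs : 160 * (K₁ : ℝ) * x ^ 2 ≤ K₄ * A ^ 2 := by exact_mod_cast hsize
      have e5 : 2 * (N : ℝ) * (2 / K) = 4 * N / K := by ring
      rw [e5, div_le_div_iff₀ hK0 hx']
      have hKe : (K : ℝ) = K₃ * K₄ := by rw [hKdef]; push_cast; ring
      rw [hKe]
      have hD0 := abs_nonneg (dl z z' : ℝ)
      have hpos : 0 < (K₁ : ℝ) * x * A := by positivity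
      refine le_of_mul_le_mul_right ?_ hpos
      calc 4 * (N : ℝ) * x * (K₁ * x * A) = (4 * K₁ * x ^ 2) * (N * A) := by ring
        _ ≤ (4 * K₁ * x ^ 2) * (K₁ * (x * |(dl z z' : ℝ)|)) := mul_le_mul_of_nonneg_left hr.le (by positivity)
        _ ≤ (160 * K₁ * x ^ 2) * (K₁ * (x * |(dl z z' : ℝ)|)) :=
            mul_le_mul_of_nonneg_right (by nlinarith [sq_nonneg (x : ℝ)]) (by positivity)
        _ ≤ (K₄ * A ^ 2) * (K₁ * (x * |(dl z z' : ℝ)|)) := mul_le_mul_of_nonneg_right hs (by positivity)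
        _ = 1 * ((K₄ * A ^ 2) * (K₁ * (x * |(dl z z' : ℝ)|))) := by ring
        _ ≤ K₃ * ((K₄ * A ^ 2) * (K₁ * (x * |(dl z z' : ℝ)|))) := mul_le_mul_of_nonneg_right hK₃' (by positivity)
        _ = A * |(dl z z' : ℝ)| * (K₃ * K₄) * (K₁ * x * A) := by ring
    rw [hDcast]
    have f4 : (sp z z' : ℝ) - N8 z * (2 : ℝ) ^ ((m : ℝ) / K) =
        ((sp z z' : ℝ) - N8 z * ((l₂ : ℝ) / l₁)) +
        ((N8 z : ℝ) * ((l₂ : ℝ) / l₁) - N8 z * (2 : ℝ) ^ ((m : ℝ) / K)) := by ring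
    rw [f4]
    refine (abs_add_le _ _).trans ?_
    have e6 : 2 * (A : ℝ) * |(dl z z' : ℝ)| / x = A * |(dl z z' : ℝ)| / x + A * |(dl z z' : ℝ)| / x := by ring
    rw [e6]
    exact add_le_add f1 (f2.trans f3)
  · intro x N A hx hN hAx z hz z' hz' hd l₁ l₂ h1 h2 hInd
    have hd0 : (dl z z' : ℝ) ≠ 0 := by exact_mod_cast hd
    have hI : 0 < a1 z z' l₁ l₂ ∧ a1 z z' l₁ l₂ ≤ A ∧ 0 < a2 z z' l₁ l₂ ∧ a2 z z' l₁ l₂ ≤ A := by
      by_contra hc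
      apply hInd
      unfold Ind
      exact if_neg hc
    obtain ⟨p1, p2, p3, p4⟩ := hI
    have hx' : (1 : ℝ) ≤ x := by exact_mod_cast hx
    have hA' : (A : ℝ) ≤ x := by exact_mod_cast hAx
    have hl₁ : (x : ℝ) < l₁ := by exact_mod_cast h1
    have hl₂ : (x : ℝ) < l₂ := by exact_mod_cast h2
    set u : ℝ := a1 z z' l₁ l₂ with hu
    set v : ℝ := a2 z z' l₁ l₂ with hv
    have e3 : (dl z z' : ℝ) * u = sp z z' * l₁ - N8 z * l₂ := by
      rw [hu]; unfold a1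
      field_simp
    have e4 : (dl z z' : ℝ) * v = N8 z' * l₁ - sp z z' * l₂ := by
      rw [hv]; unfold a2
      field_simp
    have e5 : (sp z z' : ℝ) ^ 2 - 8 * (dl z z' : ℝ) ^ 2 = N8 z * N8 z' := by
      have : sp z z' ^ 2 - 8 * dl z z' ^ 2 = N8 z * N8 z' := by
        unfold sp dl N8; ring
      exact_mod_cast this
    -- the two brackets
    have e6 : (N8 z' : ℝ) * (u ^ 2 - 8 * l₁ ^ 2) = N8 z * (v ^ 2 - 8 * l₂ ^ 2) := by
      have hdd : (dl z z' : ℝ) ^ 2 ≠ 0 := pow_ne_zero 2 hd0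
      apply mul_left_cancel₀ hdd
      have g1 : (dl z z' : ℝ) ^ 2 * ((N8 z' : ℝ) * (u ^ 2 - 8 * l₁ ^ 2)) =
          N8 z' * (((dl z z' : ℝ) * u) ^ 2 - 8 * (dl z z' : ℝ) ^ 2 * l₁ ^ 2) := by ring
      have g2 : (dl z z' : ℝ) ^ 2 * ((N8 z : ℝ) * (v ^ 2 - 8 * l₂ ^ 2)) =
          N8 z * (((dl z z' : ℝ) * v) ^ 2 - 8 * (dl z z' : ℝ) ^ 2 * l₂ ^ 2) := by ring
      rw [g1, g2, e3, e4]
      have e5' : 8 * (dl z z' : ℝ) ^ 2 = (sp z z' : ℝ) ^ 2 - N8 z * N8 z' := by linarith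
      rw [e5']
      ring
    have n1 : u ^ 2 - 8 * (l₁ : ℝ) ^ 2 < 0 := by nlinarith
    have n2 : v ^ 2 - 8 * (l₂ : ℝ) ^ 2 < 0 := by nlinarith
    have m1 : (N : ℝ) < |(N8 z : ℝ)| := by exact_mod_cast RNR_nn' hz
    have m2 : (N : ℝ) < |(N8 z' : ℝ)| := by exact_mod_cast RNR_nn' hz'
    have hN0 : (0 : ℝ) ≤ N := Nat.cast_nonneg N
    -- the same sign
    have s1 : 0 ≤ (N8 z : ℝ) * N8 z' := by
      by_contra hc
      push Not at hc
      have g3 : ((N8 z : ℝ) * N8 z') * (u ^ 2 - 8 * l₁ ^ 2) = (N8 z : ℝ) ^ 2 * (v ^ 2 - 8 * l₂ ^ 2) := by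
        calc ((N8 z : ℝ) * N8 z') * (u ^ 2 - 8 * l₁ ^ 2) = N8 z * ((N8 z' : ℝ) * (u ^ 2 - 8 * l₁ ^ 2)) := by ring
          _ = N8 z * (N8 z * (v ^ 2 - 8 * l₂ ^ 2)) := by rw [e6]
          _ = _ := by ring
      have g4 := mul_pos_of_neg_of_neg hc n1
      have g5 : (N8 z : ℝ) ^ 2 * (v ^ 2 - 8 * l₂ ^ 2) ≤ 0 :=
        mul_nonpos_of_nonneg_of_nonpos (sq_nonneg _) n2.le
      linarith
    have s2 : (N : ℝ) ^ 2 ≤ (N8 z : ℝ) * N8 z' := by
      rw [← abs_of_nonneg s1, abs_mul, sq]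
      exact mul_le_mul m1.le m2.le hN0 (abs_nonneg _)
    have s3 : (N : ℝ) ^ 2 ≤ (sp z z' : ℝ) ^ 2 := by nlinarith [sq_nonneg (dl z z' : ℝ)]
    have s4 : (N : ℝ) ≤ |(sp z z' : ℝ)| := by
      have := sq_le_sq.1 s3
      rwa [abs_of_nonneg hN0] at this
    exact_mod_cast s4

end Pool.Agent.EU
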