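import Pool.Agent.helper52.EU.SpecW

/-!
Row eu:SMW (the smooth variable).
-/

set_option autoImplicit false
open Finset
namespace Pool.Agent.EU
open Pool.Agent.FI Pool.Agent.HK Pool.Agent.BP
open Pool.Agent.CH (nit)

private lemma SMW_cls (n : ℕ) (hn : 0 < n) (a : ℤ) (v : ℕ) (hv : v < n) :
    (a % (n : ℤ)).toNat = v ↔ (n : ℤ) ∣ a - v := by
  have h0 : (0 : ℤ) < (n : ℤ) := by exact_mod_cast hn
  have h1 := Int.emod_nonneg a h0.ne'
  have h2 := Int.mul_ediv_add_emod a n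
  constructor
  · intro h
    have h3 : a % (n : ℤ) = v := by
      rw [← h]; exact (Int.toNat_of_nonneg h1).symm
    exact ⟨a / n, by linarith⟩
  · intro h
    have h3 : a % (n : ℤ) = (v : ℤ) % n := Int.emod_eq_emod_iff_emod_sub_eq_zero.mpr (Int.emod_eq_zero_of_dvd h)
    have h4 : (v : ℤ) % n = v := Int.emod_eq_of_lt (by positivity) (by exact_mod_cast hv)
    rw [h3, h4]
    exact Int.toNat_natCast v

private lemma SMW_range (n : ℕ) (hn : 0 < n) (a : ℤ) : (a % (n : ℤ)).toNat < n := by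
  have h0 : (0 : ℤ) < (n : ℤ) := by exact_mod_cast hn
  have h1 := Int.emod_nonneg a h0.ne'
  have h2 := Int.emod_lt_of_pos a h0
  omega

/-- the sums over the classes -/
private lemma SMW_split (M M' q i : ℕ) (χ : ℤ × ℤ → ℂ) (E : ℤ × ℤ → ℂ) (hq : 1 ≤ q)
    (hχ : ∀ z w : ℤ × ℤ, (q : ℤ) ∣ z.1 - w.1 → (q : ℤ) ∣ z.2 - w.2 → χ z = χ w) :
    ∑ z ∈ FF M' with M < nn z, χ z * ((N8 z).sign : ℂ) ^ i * E z =
      ∑ p ∈ (((range (2 * q) ×ˢ range (2 * q)).filter fun v => v.1 % 2 = 1) ×ˢ ({1, -1} : Finset ℤ)),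
        χ ((p.1.1 : ℤ), (p.1.2 : ℤ)) * ((p.2 : ℤ) : ℂ) ^ i *
          ∑ z ∈ FF M' with (M < nn z ∧ ((2 * q : ℕ) : ℤ) ∣ z.1 - (p.1.1 : ℤ) ∧ ((2 * q : ℕ) : ℤ) ∣ z.2 - (p.1.2 : ℤ) ∧ (N8 z).sign = p.2), E z := by
  classical
  have h2q : 0 < 2 * q := by omega
  set g : ℤ × ℤ → (ℕ × ℕ) × ℤ := fun z =>
    (((z.1 % ((2 * q : ℕ) : ℤ)).toNat, (z.2 % ((2 * q : ℕ) : ℤ)).toNat), (N8 z).sign) with hg
  have hmaps : ∀ z ∈ (FF M').filter (fun z => M < nn z),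
      g z ∈ (((range (2 * q) ×ˢ range (2 * q)).filter fun v => v.1 % 2 = 1) ×ˢ ({1, -1} : Finset ℤ)) := by
    intro z hz
    rw [Finset.mem_filter] at hz
    have hF : Fd z := by
      have := hz.1
      unfold FF at this
      rw [Finset.mem_filter] at this
      exact this.2.1
    have hodd := hF.1
    have hnn : N8 z ≠ 0 := by
      intro h
      have : nn z = 0 := by unfold nn; rw [h]; rfl
      omega
    simp only [hg, Finset.mem_product, Finset.mem_filter, Finset.mem_range, Finset.mem_insert, Finset.mem_singleton]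
    refine ⟨⟨⟨SMW_range _ h2q _, SMW_range _ h2q _⟩, ?_⟩, ?_⟩
    · have h0 : (0 : ℤ) < ((2 * q : ℕ) : ℤ) := by exact_mod_cast h2q
      have h1 := Int.emod_nonneg z.1 h0.ne'
      have h2 := Int.mul_ediv_add_emod z.1 ((2 * q : ℕ) : ℤ)
      have h3 : (z.1 % ((2 * q : ℕ) : ℤ)) % 2 = 1 := by
        have h4 : z.1 % ((2 * q : ℕ) : ℤ) % 2 = z.1 % 2 := by
          apply Int.emod_emod_of_dvd
          push_cast
          exact Dvd.intro _ rfl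
        rw [h4]; exact hodd
      omega
    · rcases lt_trichotomy (N8 z) 0 with h | h | h
      · right; exact Int.sign_eq_neg_one_of_neg h
      · exact absurd h hnn
      · left; exact Int.sign_eq_one_of_pos h
  rw [← Finset.sum_fiberwise_of_maps_to hmaps]
  apply Finset.sum_congr rfl
  rintro ⟨⟨v1, v2⟩, sg⟩ hp
  simp only [Finset.mem_product, Finset.mem_filter, Finset.mem_range] at hp
  obtain ⟨⟨⟨hv1, hv2⟩, -⟩, -⟩ := hp
  rw [Finset.mul_sum]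
  rw [Finset.filter_filter]
  have hiff : ∀ z : ℤ × ℤ, g z = ((v1, v2), sg) ↔
      ((2 * q : ℕ) : ℤ) ∣ z.1 - (v1 : ℤ) ∧ ((2 * q : ℕ) : ℤ) ∣ z.2 - (v2 : ℤ) ∧ (N8 z).sign = sg := by
    intro z
    simp only [hg, Prod.mk.injEq]
    rw [SMW_cls _ h2q _ _ hv1, SMW_cls _ h2q _ _ hv2]
    tauto
  refine Finset.sum_congr ?_ ?_
  · ext z
    simp only [Finset.mem_filter, hiff]
  · intro z hz
    simp only [Finset.mem_filter] at hz
    obtain ⟨-, -, h1, h2, h3⟩ := hz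
    have hd : (q : ℤ) ∣ ((2 * q : ℕ) : ℤ) := by push_cast; exact Dvd.intro_left _ rfl
    rw [hχ z ((v1 : ℤ), (v2 : ℤ)) (hd.trans h1) (hd.trans h2), h3]

private lemma SMW_card (q : ℕ) :
    ((((((range (2 * q) ×ˢ range (2 * q)).filter fun v => v.1 % 2 = 1) ×ˢ ({1, -1} : Finset ℤ))).card : ℕ) : ℝ) ≤ 8 * (q : ℝ) ^ 2 := by
  rw [Finset.card_product]
  have h1 : ((range (2 * q) ×ˢ range (2 * q)).filter fun v => v.1 % 2 = 1).card ≤ (2 * q) * (2 * q) := by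
    refine (Finset.card_filter_le _ _).trans ?_
    rw [Finset.card_product, Finset.card_range]
  have h2 : ({1, -1} : Finset ℤ).card ≤ 2 := Finset.card_le_two
  have h3 : ((range (2 * q) ×ˢ range (2 * q)).filter fun v => v.1 % 2 = 1).card * ({1, -1} : Finset ℤ).card ≤ (2 * q) * (2 * q) * 2 :=
    Nat.mul_le_mul h1 h2
  have h4 : (((((range (2 * q) ×ˢ range (2 * q)).filter fun v => v.1 % 2 = 1).card * ({1, -1} : Finset ℤ).card : ℕ)) : ℝ) ≤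
      (((2 * q) * (2 * q) * 2 : ℕ) : ℝ) := by exact_mod_cast h3
  refine h4.trans (le_of_eq ?_)
  push_cast
  ring

theorem SMW (hWAC : WAC_stmt) : SMW_stmt := by
  classical
  intro η hη hη1
  obtain ⟨δ0, hδ0, x₀, hW⟩ := hWAC η hη hη1
  obtain ⟨x₁, hx₁⟩ : ∃ x₁ : ℕ, ∀ x : ℕ, x₁ ≤ x → (64 : ℝ) ≤ (x : ℝ) ^ (δ0 / 2) := by
    have h1 : Filter.Tendsto (fun x : ℕ => (x : ℝ) ^ (δ0 / 2)) Filter.atTop Filter.atTop :=
      (tendsto_rpow_atTop (by positivity)).comp tendsto_natCast_atTop_atTop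
    obtain ⟨x₁, h2⟩ := Filter.eventually_atTop.mp (h1.eventually_ge_atTop 64)
    exact ⟨x₁, h2⟩
  refine ⟨δ0 / 10, by positivity, max (max x₀ x₁) 1, ?_⟩
  intro x hx K M M' q i t α χ hK hKM hMM hM2 hq hqx ht hα0 hα1 hχ1 hχ
  have hxx0 : x₀ ≤ x := (le_max_left _ _).trans ((le_max_left _ _).trans hx)
  have hxx1 : x₁ ≤ x := (le_max_right _ _).trans ((le_max_left _ _).trans hx)
  have hx1 : 1 ≤ x := (le_max_right _ _).trans hx
  have hxr : (1 : ℝ) ≤ (x : ℝ) := by exact_mod_cast hx1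
  have hxp : (0 : ℝ) < (x : ℝ) := by linarith
  have h64 := hx₁ x hxx1
  have hq2 : ((2 * q : ℕ) : ℝ) ≤ (x : ℝ) ^ δ0 := by
    have e1 : (x : ℝ) ^ δ0 = (x : ℝ) ^ (δ0 / 2) * (x : ℝ) ^ (δ0 / 2) := by
      rw [← Real.rpow_add hxp]; congr 1; ring
    have e2 : (x : ℝ) ^ (δ0 / 10) ≤ (x : ℝ) ^ (δ0 / 2) :=
      Real.rpow_le_rpow_of_exponent_le hxr (by linarith)
    have e3 : (0 : ℝ) ≤ q := Nat.cast_nonneg q
    have e4 : (0 : ℝ) < (x : ℝ) ^ (δ0 / 2) := by positivity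
    push_cast
    rw [e1]
    nlinarith
  have h2d : 2 ∣ 2 * q := Dvd.intro _ rfl
  obtain ⟨G1, hG10, hG1⟩ := hW x hxx0 K M M' (2 * q) 1 t α (Or.inl rfl) hK hKM hMM hM2 h2d (by omega) hq2 ht hα0 hα1
  obtain ⟨G2, hG20, hG2⟩ := hW x hxx0 K M M' (2 * q) (-1) t α (Or.inr rfl) hK hKM hMM hM2 h2d (by omega) hq2 ht hα0 hα1
  set P := (((range (2 * q) ×ˢ range (2 * q)).filter fun v => v.1 % 2 = 1) ×ˢ ({1, -1} : Finset ℤ)) with hP
  set G : ℤ → ℤ → ℂ := fun sg m => if sg = 1 then G1 m else G2 m with hG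
  set E : ℤ → ℤ × ℤ → ℂ := fun m z => Complex.exp (((fr α m * yy z : ℝ) : ℂ) * Complex.I) * nit t (nn z) with hE
  set S : (ℕ × ℕ) × ℤ → ℤ → ℂ := fun p m =>
    ∑ z ∈ FF M' with (M < nn z ∧ ((2 * q : ℕ) : ℤ) ∣ z.1 - (p.1.1 : ℤ) ∧ ((2 * q : ℕ) : ℤ) ∣ z.2 - (p.1.2 : ℤ) ∧ (N8 z).sign = p.2), E m z with hS
  have hSG : ∀ p ∈ P, ∑ m ∈ Icc (-(K : ℤ)) K, ‖S p m - G p.2 m‖ ^ 2 ≤ (M : ℝ) ^ 2 * (x : ℝ) ^ (-δ0) := by
    rintro ⟨⟨v1, v2⟩, sg⟩ hp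
    simp only [hP, Finset.mem_product, Finset.mem_filter, Finset.mem_range, Finset.mem_insert, Finset.mem_singleton] at hp
    obtain ⟨⟨-, hodd⟩, hsg⟩ := hp
    have hodd' : (((v1 : ℤ), (v2 : ℤ)) : ℤ × ℤ).1 % 2 = 1 := by
      show (v1 : ℤ) % 2 = 1
      omega
    rcases hsg with rfl | rfl
    · have := hG1 ((v1 : ℤ), (v2 : ℤ)) hodd'
      simpa [hS, hE, hG] using this
    · have := hG2 ((v1 : ℤ), (v2 : ℤ)) hodd'
      simpa [hS, hE, hG] using this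
  -- the general bound
  have main : ∀ F : Finset ℤ, F ⊆ Icc (-(K : ℤ)) K →
      (∀ m ∈ F, ∑ p ∈ P, χ ((p.1.1 : ℤ), (p.1.2 : ℤ)) * ((p.2 : ℤ) : ℂ) ^ i * G p.2 m = 0) →
      ∑ m ∈ F, ‖∑ z ∈ FF M' with M < nn z, χ z * ((N8 z).sign : ℂ) ^ i * Complex.exp (((fr α m * yy z : ℝ) : ℂ) * Complex.I) * nit t (nn z)‖ ^ 2
        ≤ (M : ℝ) ^ 2 * (x : ℝ) ^ (-(δ0 / 10)) := by
    intro F hF h0
    have hstep : ∀ m ∈ F, ‖∑ z ∈ FF M' with M < nn z, χ z * ((N8 z).sign : ℂ) ^ i * Complex.exp (((fr α m * yy z : ℝ) : ℂ) * Complex.I) * nit t (nn z)‖ ^ 2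
        ≤ 8 * (q : ℝ) ^ 2 * ∑ p ∈ P, ‖S p m - G p.2 m‖ ^ 2 := by
      intro m hm
      have e1 : ∑ z ∈ FF M' with M < nn z, χ z * ((N8 z).sign : ℂ) ^ i * Complex.exp (((fr α m * yy z : ℝ) : ℂ) * Complex.I) * nit t (nn z)
          = ∑ p ∈ P, χ ((p.1.1 : ℤ), (p.1.2 : ℤ)) * ((p.2 : ℤ) : ℂ) ^ i * (S p m - G p.2 m) := by
        have e2 : ∑ p ∈ P, χ ((p.1.1 : ℤ), (p.1.2 : ℤ)) * ((p.2 : ℤ) : ℂ) ^ i * (S p m - G p.2 m)
            = ∑ p ∈ P, χ ((p.1.1 : ℤ), (p.1.2 : ℤ)) * ((p.2 : ℤ) : ℂ) ^ i * S p m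
              - ∑ p ∈ P, χ ((p.1.1 : ℤ), (p.1.2 : ℤ)) * ((p.2 : ℤ) : ℂ) ^ i * G p.2 m := by
          rw [← Finset.sum_sub_distrib]
          apply Finset.sum_congr rfl
          intro p _
          ring
        rw [e2, h0 m hm, sub_zero]
        have e3 := SMW_split M M' q i χ (E m) hq hχ
        rw [← hP] at e3
        rw [← e3]
        apply Finset.sum_congr rfl
        intro z _
        simp only [hE]
        ring
      rw [e1]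
      have e4 : ‖∑ p ∈ P, χ ((p.1.1 : ℤ), (p.1.2 : ℤ)) * ((p.2 : ℤ) : ℂ) ^ i * (S p m - G p.2 m)‖ ≤ ∑ p ∈ P, ‖S p m - G p.2 m‖ := by
        refine (norm_sum_le _ _).trans (Finset.sum_le_sum ?_)
        intro p hp
        rw [norm_mul, norm_mul, norm_pow]
        have hsg : ‖((p.2 : ℤ) : ℂ)‖ = 1 := by
          simp only [hP, Finset.mem_product, Finset.mem_insert, Finset.mem_singleton] at hp
          rcases hp.2 with h | h <;> rw [h] <;> simp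
        rw [hsg, one_pow, mul_one]
        have := hχ1 ((p.1.1 : ℤ), (p.1.2 : ℤ))
        have h3 := norm_nonneg (S p m - G p.2 m)
        nlinarith
      have e5 : ‖∑ p ∈ P, χ ((p.1.1 : ℤ), (p.1.2 : ℤ)) * ((p.2 : ℤ) : ℂ) ^ i * (S p m - G p.2 m)‖ ^ 2 ≤ (∑ p ∈ P, ‖S p m - G p.2 m‖) ^ 2 :=
        pow_le_pow_left₀ (norm_nonneg _) e4 2
      have e6 : (∑ p ∈ P, ‖S p m - G p.2 m‖) ^ 2 ≤ (P.card : ℝ) * ∑ p ∈ P, ‖S p m - G p.2 m‖ ^ 2 := sq_sum_le_card_mul_sum_sq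
      have e7 : (P.card : ℝ) ≤ 8 * (q : ℝ) ^ 2 := SMW_card q
      have e8 : 0 ≤ ∑ p ∈ P, ‖S p m - G p.2 m‖ ^ 2 := Finset.sum_nonneg (fun _ _ => by positivity)
      exact e5.trans (e6.trans (mul_le_mul_of_nonneg_right e7 e8))
    have hsum : ∑ m ∈ F, ‖∑ z ∈ FF M' with M < nn z, χ z * ((N8 z).sign : ℂ) ^ i * Complex.exp (((fr α m * yy z : ℝ) : ℂ) * Complex.I) * nit t (nn z)‖ ^ 2
        ≤ 8 * (q : ℝ) ^ 2 * (8 * (q : ℝ) ^ 2 * ((M : ℝ) ^ 2 * (x : ℝ) ^ (-δ0))) := by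
      refine (Finset.sum_le_sum hstep).trans ?_
      rw [← Finset.mul_sum]
      apply mul_le_mul_of_nonneg_left _ (by positivity)
      rw [Finset.sum_comm]
      have f1 : ∀ p ∈ P, ∑ m ∈ F, ‖S p m - G p.2 m‖ ^ 2 ≤ (M : ℝ) ^ 2 * (x : ℝ) ^ (-δ0) := by
        intro p hp
        exact (Finset.sum_le_sum_of_subset_of_nonneg hF (fun _ _ _ => by positivity)).trans (hSG p hp)
      refine (Finset.sum_le_sum f1).trans ?_
      rw [Finset.sum_const, nsmul_eq_mul]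
      exact mul_le_mul_of_nonneg_right (SMW_card q) (by positivity)
    refine hsum.trans ?_
    have g1 : (q : ℝ) ^ 4 ≤ (x : ℝ) ^ (2 * δ0 / 5) := by
      have := pow_le_pow_left₀ (Nat.cast_nonneg q) hqx 4
      refine this.trans (le_of_eq ?_)
      rw [← Real.rpow_natCast, ← Real.rpow_mul hxp.le]
      congr 1
      push_cast
      ring
    have g2 : (x : ℝ) ^ (-(δ0 / 10)) = (x : ℝ) ^ (δ0 / 2) * (x : ℝ) ^ (2 * δ0 / 5) * (x : ℝ) ^ (-δ0) := by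
      rw [← Real.rpow_add hxp, ← Real.rpow_add hxp]
      congr 1
      ring
    rw [g2]
    have g3 : (0 : ℝ) ≤ (M : ℝ) ^ 2 * (x : ℝ) ^ (-δ0) := by positivity
    have g4 : (64 : ℝ) * (q : ℝ) ^ 4 ≤ (x : ℝ) ^ (δ0 / 2) * (x : ℝ) ^ (2 * δ0 / 5) :=
      mul_le_mul h64 g1 (by positivity) (by positivity)
    calc 8 * (q : ℝ) ^ 2 * (8 * (q : ℝ) ^ 2 * ((M : ℝ) ^ 2 * (x : ℝ) ^ (-δ0)))
        = (64 * (q : ℝ) ^ 4) * ((M : ℝ) ^ 2 * (x : ℝ) ^ (-δ0)) := by ring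
      _ ≤ ((x : ℝ) ^ (δ0 / 2) * (x : ℝ) ^ (2 * δ0 / 5)) * ((M : ℝ) ^ 2 * (x : ℝ) ^ (-δ0)) := mul_le_mul_of_nonneg_right g4 g3
      _ = (M : ℝ) ^ 2 * ((x : ℝ) ^ (δ0 / 2) * (x : ℝ) ^ (2 * δ0 / 5) * (x : ℝ) ^ (-δ0)) := by ring
  constructor
  · intro hz
    apply main _ (Finset.Subset.refl _)
    intro m _
    rw [hP, Finset.sum_product_right]
    apply Finset.sum_eq_zero
    intro sg _
    have : ∑ v ∈ ((range (2 * q) ×ˢ range (2 * q)).filter fun v => v.1 % 2 = 1), χ ((v.1 : ℤ), (v.2 : ℤ)) * ((sg : ℤ) : ℂ) ^ i * G sg m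
        = (∑ v ∈ ((range (2 * q) ×ˢ range (2 * q)).filter fun v => v.1 % 2 = 1), χ ((v.1 : ℤ), (v.2 : ℤ))) * (((sg : ℤ) : ℂ) ^ i * G sg m) := by
      rw [Finset.sum_mul]
      apply Finset.sum_congr rfl
      intro v _
      ring
    rw [this, hz, zero_mul]
  · intro hα
    apply main _ (Finset.filter_subset _ _)
    intro m hm
    rw [Finset.mem_filter] at hm
    apply Finset.sum_eq_zero
    intro p _
    have : G p.2 m = 0 := by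
      simp only [hG]
      split_ifs
      · exact hG10 hα m hm.2
      · exact hG20 hα m hm.2
    rw [this, mul_zero]

end Pool.Agent.EU
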